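import Pool.Agent.Helper58.DM.Goals

/-!
# Project DM, packet M_LSUM
-/

set_option autoImplicit false

namespace Pool.Agent.Helper96.DM

open Matrix Pool.Agent.Helper58.DH Pool.Agent.Helper58.DM

section

variable {I : Type} [Fintype I] [DecidableEq I]

theorem sum_eq (f : I → I → ℂ) (g : I → I) :
    ∑ c, ∑ d, f c d * (if c = g d then (1 : ℂ) else 0) = ∑ d, f (g d) d := by
  rw [Finset.sum_comm]
  refine Finset.sum_congr rfl fun d _ => ?_
  rw [Finset.sum_eq_single (g d)]
  · simp
  · intro c _ hc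
    simp [hc]
  · intro h
    exact absurd (Finset.mem_univ _) h

theorem ite_and_mul (P Q : Prop) [Decidable P] [Decidable Q] :
    (if P ∧ Q then (1 : ℂ) else 0) = (if P then 1 else 0) * (if Q then 1 else 0) := by
  split_ifs <;> simp_all

theorem expand {κ : Type} [Fintype κ] (e : κ → Matrix I I ℂ) (Z : Matrix I I ℂ) (a b : I) :
    ∑ j, (⁅Z, e j⁆ : Matrix I I ℂ) a b * (⁅Z, e j⁆ : Matrix I I ℂ) b a =
      (∑ c, ∑ d, Z a c * Z b d * ∑ j, e j c b * e j d a) -
      (∑ c, ∑ d, Z a c * Z d a * ∑ j, e j c b * e j b d) -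
      (∑ c, ∑ d, Z c b * Z b d * ∑ j, e j a c * e j d a) +
      (∑ c, ∑ d, Z c b * Z d a * ∑ j, e j a c * e j b d) := by
  have h1 : ∀ j, (⁅Z, e j⁆ : Matrix I I ℂ) a b * (⁅Z, e j⁆ : Matrix I I ℂ) b a =
      ∑ c, ∑ d, (Z a c * e j c b - e j a c * Z c b) * (Z b d * e j d a - e j b d * Z d a) := by
    intro j
    rw [Ring.lie_def, Matrix.sub_apply, Matrix.sub_apply, Matrix.mul_apply, Matrix.mul_apply,
      Matrix.mul_apply, Matrix.mul_apply, ← Finset.sum_sub_distrib, ← Finset.sum_sub_distrib,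
      Finset.sum_mul_sum]
  rw [Finset.sum_congr rfl fun j _ => h1 j, Finset.sum_comm, ← Finset.sum_sub_distrib,
    ← Finset.sum_sub_distrib, ← Finset.sum_add_distrib]
  refine Finset.sum_congr rfl fun c _ => ?_
  rw [Finset.sum_comm, ← Finset.sum_sub_distrib, ← Finset.sum_sub_distrib,
    ← Finset.sum_add_distrib]
  refine Finset.sum_congr rfl fun d _ => ?_
  rw [Finset.mul_sum, Finset.mul_sum, Finset.mul_sum, Finset.mul_sum, ← Finset.sum_sub_distrib,
    ← Finset.sum_sub_distrib, ← Finset.sum_add_distrib]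
  exact Finset.sum_congr rfl fun j _ => by ring

end

theorem m_lsum (hE : M_ENT) (hK : M_KER) : M_LSUM := by
  intro I _ _ F w κ _ _ e hk hw he Z hT hO a b
  obtain ⟨-, -, -, -, hx, -⟩ := hE I F hk
  have hker := hK I F w κ e hk hw he
  have hbb := F.bar_bar
  obtain ⟨X, hX⟩ : ∃ X : I → I → ℂ, X = fun i j => (((xx F w i j)⁻¹ : ℝ) : ℂ) := ⟨_, rfl⟩
  have Xs : ∀ i j, X i j = X j i := fun i j => by
    rw [hX]
    show (((xx F w i j)⁻¹ : ℝ) : ℂ) = (((xx F w j i)⁻¹ : ℝ) : ℂ)
    rw [(hx w i j).1]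
  have Xb : ∀ i j, X (F.bar i) j = X i (F.bar j) := fun i j => by
    rw [hX]
    show (((xx F w (F.bar i) j)⁻¹ : ℝ) : ℂ) = (((xx F w i (F.bar j))⁻¹ : ℝ) : ℂ)
    have := (hx w i (F.bar j)).2
    rw [hbb] at this
    rw [this]
  obtain ⟨q, hq⟩ : ∃ q : ℂ, q = 1 / (2 * (kk F : ℂ)) := ⟨_, rfl⟩
  have hZd : ∀ i, Z i i = 0 := fun i => hO i i rfl
  have hs : ∀ i, (F.sg i : ℂ) * (F.sg i : ℂ) = 1 := fun i => by exact_mod_cast F.sg_sq i
  have hsb : ∀ i, (F.sg (F.bar i) : ℂ) = (F.η : ℂ) * (F.sg i : ℂ) := fun i => by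
    exact_mod_cast F.sg_bar i
  have hK2 : ∀ a b c d : I, ∑ j, e j a b * e j c d = -q * X c d *
      ((if a = d ∧ b = c then 1 else 0) -
        (F.sg c : ℂ) * (F.sg d : ℂ) * (if a = F.bar c ∧ b = F.bar d then 1 else 0)) := by
    intro a b c d
    rw [hker a b c d, hX, hq]
    push_cast
    ring
  have hT2 : ∀ i j, Z (F.bar i) j = -((F.η : ℂ) * ((F.sg i : ℂ) * (F.sg j : ℂ))) *
      Z (F.bar j) i := by
    intro i j
    have h1 := hT (F.bar j) i
    rw [hbb] at h1
    rw [h1]
    push_cast
    rw [hsb]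
    ring
  have hbar : ∀ f : I → ℂ, ∑ d, f (F.bar d) = ∑ d, f d := fun f =>
    Equiv.sum_comp (Function.Involutive.toPerm F.bar hbb) f
  have habi : b = F.bar a ↔ a = F.bar b :=
    ⟨fun h => by rw [h, hbb], fun h => by rw [h, hbb]⟩
  -- the four terms
  have t1 : ∑ c, ∑ d, Z a c * Z b d * ∑ j, e j c b * e j d a =
      -q * F.η * (if a = F.bar b then (∑ c, Z a c * Z c a * X c b) else 0) := by
    have h1 : ∀ c d, Z a c * Z b d * ∑ j, e j c b * e j d a =
        (q * (if a = F.bar b then 1 else 0) * (Z a c * Z b d * X d a *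
          ((F.sg d : ℂ) * (F.sg a : ℂ)))) * (if c = F.bar d then (1 : ℂ) else 0) := by
      intro c d
      rw [hK2, ite_and_mul, ite_and_mul]
      have h2 : Z a c * (if c = a then (1 : ℂ) else 0) = 0 := by
        split_ifs with h
        · rw [h, hZd, zero_mul]
        · rw [mul_zero]
      have h3 : (if b = F.bar a then (1 : ℂ) else 0) = if a = F.bar b then 1 else 0 := by
        simp only [habi]
      rw [h3]
      linear_combination (-q * X d a * Z b d * (if b = d then (1 : ℂ) else 0)) * h2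
    simp only [h1]
    rw [sum_eq (fun c d => q * (if a = F.bar b then 1 else 0) * (Z a c * Z b d * X d a *
          ((F.sg d : ℂ) * (F.sg a : ℂ)))) F.bar]
    split_ifs with h
    · have hb : b = F.bar a := habi.2 h
      rw [← hbar fun c => Z a c * Z c a * X c b, Finset.mul_sum]
      refine Finset.sum_congr rfl fun d _ => ?_
      rw [Xb d b, ← h]
      have h4 : Z b d = -((F.η : ℂ) * ((F.sg a : ℂ) * (F.sg d : ℂ))) * Z (F.bar d) a := by
        rw [hb]; exact hT2 a d
      rw [h4]
      linear_combination (-(q * Z a (F.bar d) * Z (F.bar d) a * X d a * F.η) *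
        ((F.sg d : ℂ) * (F.sg d : ℂ))) * hs a - (q * Z a (F.bar d) * Z (F.bar d) a * X d a * F.η) *
        hs d
    · simp
  have t2 : ∑ c, ∑ d, Z a c * Z d a * ∑ j, e j c b * e j b d =
      -q * ((∑ c, Z a c * Z c a * X c b) -
        F.η * (Z a (F.bar b) * Z (F.bar b) a * X b (F.bar b))) := by
    have h1 : ∀ c d, Z a c * Z d a * ∑ j, e j c b * e j b d =
        (-q * (Z a c * Z d a * X b d)) * (if c = id d then (1 : ℂ) else 0) -
        ((-q * (Z a c * Z d a * X b d * ((F.sg b : ℂ) * (F.sg d : ℂ)))) *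
          (if c = F.bar b then 1 else 0)) * (if d = F.bar b then (1 : ℂ) else 0) := by
      intro c d
      rw [hK2, ite_and_mul, ite_and_mul]
      have h3 : (if b = F.bar d then (1 : ℂ) else 0) = if d = F.bar b then 1 else 0 := by
        have : b = F.bar d ↔ d = F.bar b := ⟨fun h => by rw [h, hbb], fun h => by rw [h, hbb]⟩
        simp only [this]
      rw [h3]
      simp only [id, if_true]
      ring
    simp only [h1, Finset.sum_sub_distrib]
    rw [sum_eq (fun c d => -q * (Z a c * Z d a * X b d)) id]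
    have h5 : ∑ c, ∑ d, ((-q * (Z a c * Z d a * X b d * ((F.sg b : ℂ) * (F.sg d : ℂ)))) *
          (if c = F.bar b then 1 else 0)) * (if d = F.bar b then (1 : ℂ) else 0) =
        -q * (Z a (F.bar b) * Z (F.bar b) a * X b (F.bar b) *
          ((F.sg b : ℂ) * (F.sg (F.bar b) : ℂ))) := by
      rw [Finset.sum_eq_single (F.bar b)]
      · rw [Finset.sum_eq_single (F.bar b)]
        · simp
        · intro d _ hd
          simp [hd]
        · intro h
          exact absurd (Finset.mem_univ _) h
      · intro c _ hc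
        simp [hc]
      · intro h
        exact absurd (Finset.mem_univ _) h
    rw [h5, mul_sub, Finset.mul_sum]
    congr 1
    · refine Finset.sum_congr rfl fun c _ => ?_
      simp only [id]
      rw [Xs b c]
    · rw [hsb]
      linear_combination (-q * (Z a (F.bar b) * Z (F.bar b) a * X b (F.bar b)) * F.η) * hs b
  have t3 : ∑ c, ∑ d, Z c b * Z b d * ∑ j, e j a c * e j d a =
      -q * ((∑ c, Z c b * Z b c * X a c) -
        F.η * (Z (F.bar a) b * Z b (F.bar a) * X a (F.bar a))) := by
    have h1 : ∀ c d, Z c b * Z b d * ∑ j, e j a c * e j d a =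
        (-q * (Z c b * Z b d * X d a)) * (if c = id d then (1 : ℂ) else 0) -
        ((-q * (Z c b * Z b d * X d a * ((F.sg d : ℂ) * (F.sg a : ℂ)))) *
          (if c = F.bar a then 1 else 0)) * (if d = F.bar a then (1 : ℂ) else 0) := by
      intro c d
      rw [hK2, ite_and_mul, ite_and_mul]
      have h3 : (if a = F.bar d then (1 : ℂ) else 0) = if d = F.bar a then 1 else 0 := by
        have : a = F.bar d ↔ d = F.bar a := ⟨fun h => by rw [h, hbb], fun h => by rw [h, hbb]⟩
        simp only [this]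
      rw [h3]
      simp only [id, if_true]
      ring
    simp only [h1, Finset.sum_sub_distrib]
    rw [sum_eq (fun c d => -q * (Z c b * Z b d * X d a)) id]
    have h5 : ∑ c, ∑ d, ((-q * (Z c b * Z b d * X d a * ((F.sg d : ℂ) * (F.sg a : ℂ)))) *
          (if c = F.bar a then 1 else 0)) * (if d = F.bar a then (1 : ℂ) else 0) =
        -q * (Z (F.bar a) b * Z b (F.bar a) * X (F.bar a) a *
          ((F.sg (F.bar a) : ℂ) * (F.sg a : ℂ))) := by
      rw [Finset.sum_eq_single (F.bar a)]
      · rw [Finset.sum_eq_single (F.bar a)]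
        · simp
        · intro d _ hd
          simp [hd]
        · intro h
          exact absurd (Finset.mem_univ _) h
      · intro c _ hc
        simp [hc]
      · intro h
        exact absurd (Finset.mem_univ _) h
    rw [h5, mul_sub, Finset.mul_sum]
    congr 1
    · refine Finset.sum_congr rfl fun c _ => ?_
      simp only [id]
      rw [Xs c a]
    · rw [hsb, Xs (F.bar a) a]
      linear_combination (-q * (Z (F.bar a) b * Z b (F.bar a) * X a (F.bar a)) * F.η) * hs a
  have t4 : ∑ c, ∑ d, Z c b * Z d a * ∑ j, e j a c * e j b d =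
      -q * F.η * (if a = F.bar b then (∑ c, Z c b * Z b c * X a c) else 0) := by
    have h1 : ∀ c d, Z c b * Z d a * ∑ j, e j a c * e j b d =
        (q * (if a = F.bar b then 1 else 0) * (Z c b * Z d a * X b d *
          ((F.sg b : ℂ) * (F.sg d : ℂ)))) * (if c = F.bar d then (1 : ℂ) else 0) := by
      intro c d
      rw [hK2, ite_and_mul, ite_and_mul]
      have h2 : Z c b * (if c = b then (1 : ℂ) else 0) = 0 := by
        split_ifs with h
        · rw [h, hZd, zero_mul]
        · rw [mul_zero]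
      linear_combination (-q * X b d * Z d a * (if a = d then (1 : ℂ) else 0)) * h2
    simp only [h1]
    rw [sum_eq (fun c d => q * (if a = F.bar b then 1 else 0) * (Z c b * Z d a * X b d *
          ((F.sg b : ℂ) * (F.sg d : ℂ)))) F.bar]
    split_ifs with h
    · have hb : b = F.bar a := habi.2 h
      rw [← hbar fun c => Z c b * Z b c * X a c, Finset.mul_sum]
      refine Finset.sum_congr rfl fun d _ => ?_
      rw [Xs a (F.bar d), Xb d a, ← hb, Xs d b]
      have h4 : Z d a = -((F.η : ℂ) * ((F.sg b : ℂ) * (F.sg d : ℂ))) * Z b (F.bar d) := by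
        have h5 := hT b (F.bar d)
        rw [hbb, ← h] at h5
        rw [h5]
        push_cast
        rw [hsb]
        ring
      rw [h4]
      linear_combination (-(q * Z (F.bar d) b * Z b (F.bar d) * X b d * F.η) *
        ((F.sg d : ℂ) * (F.sg d : ℂ))) * hs b - (q * Z (F.bar d) b * Z b (F.bar d) * X b d *
        F.η) * hs d
    · simp
  rw [expand, t1, t2, t3, t4]
  unfold LL
  rw [← hq]
  have hX' : ∀ i j, (((xx F w i j)⁻¹ : ℝ) : ℂ) = X i j := fun i j => by rw [hX]
  simp only [hX']
  split_ifs <;> ring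

end Pool.Agent.Helper96.DM
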